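import Pool.Agent.H317Z.TCMain

set_option autoImplicit false

namespace Pool.Agent.Results.MP_55a818_lc.HaltingDegree

open Pool.Agent.H317Z.TC

/-- Some noncomputable c.e. degree is the degree of topological categoricity of a computable
Polish space. -/
theorem result : ∃ D : Set ℕ, REPred (· ∈ D) ∧ ¬ ComputablePred (· ∈ D) ∧
    ∃ M : CMS, IsDegCat D M.carrier :=
  ⟨K, K_re, K_not_computable, natCMS, isDegCat_nat⟩

end Pool.Agent.Results.MP_55a818_lc.HaltingDegree
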